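import Pool.Agent.Lib.MP_688fd0_co.SQ7.IfaceG
import Pool.Agent.Lib.MP_688fd0_co.SQ7.H79.Tra

/-!
Type C2, B1-FULL, row NUM: all numeric conditions follow from the margin and from the size of `P`.
-/

set_option autoImplicit false

namespace Pool.Agent.Lib.MP_688fd0_co.SQ7.H53

open Pool.Agent.Lib.MP_688fd0_co.SQ7.H79

/-! ### Sizes `2 ^ X ^ a` -/

theorem e_le {X a b x : ℕ} (hX : 2 ≤ X) (hab : a ≤ b) (h : x ≤ 2 ^ X ^ a) : x ≤ 2 ^ X ^ b :=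
  h.trans (Nat.pow_le_pow_right (by norm_num) (Nat.pow_le_pow_right (by omega) hab))

theorem e_mul {X a x y : ℕ} (hX : 2 ≤ X) (hx : x ≤ 2 ^ X ^ a) (hy : y ≤ 2 ^ X ^ a) : x * y ≤ 2 ^ X ^ (a + 1) := by
  refine (Nat.mul_le_mul hx hy).trans ?_
  rw [← pow_add]
  refine Nat.pow_le_pow_right (by norm_num) ?_
  rw [pow_succ]
  have := Nat.mul_le_mul_left (X ^ a) hX
  omega

theorem e_add {X a x y : ℕ} (hX : 2 ≤ X) (hx : x ≤ 2 ^ X ^ a) (hy : y ≤ 2 ^ X ^ a) : x + y ≤ 2 ^ X ^ (a + 1) := by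
  have h1 : x + y ≤ 2 ^ (X ^ a + 1) := by rw [pow_succ]; omega
  refine h1.trans (Nat.pow_le_pow_right (by norm_num) ?_)
  rw [pow_succ]
  have := Nat.mul_le_mul_left (X ^ a) hX
  have h2 : 0 < X ^ a := Nat.pow_pos (by omega)
  omega

theorem e_pow {X a x : ℕ} (hX : 2 ≤ X) (hx : x ≤ 2 ^ X ^ a) : x ^ 20 ≤ 2 ^ X ^ (a + 5) := by
  refine (Nat.pow_le_pow_left hx 20).trans ?_
  rw [← pow_mul]
  refine Nat.pow_le_pow_right (by norm_num) ?_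
  rw [pow_add]
  refine Nat.mul_le_mul_left _ ?_
  have : 2 ^ 5 ≤ X ^ 5 := Nat.pow_le_pow_left hX 5
  omega

theorem e_of {X a x : ℕ} (h : x ≤ X ^ a) : x ≤ 2 ^ X ^ a := h.trans Nat.lt_two_pow_self.le

/-- The number of composite labels. -/
def cln (Ω : ℕ) : ℕ := 2 * (2 * Ω + 10) + 5 * (2 * (2 * Ω + 10)) ^ 3

/-- Bound for the length of a period. -/
def nbd (k Ω : ℕ) : ℕ := 3 * (((Ω + 2) ^ 2 * (3 * k + 3) + 1) * (k * cln Ω))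

theorem nbd_le {k Ω : ℕ} (h : 2 ≤ k + Ω) : nbd k Ω ≤ (k + Ω + 2) ^ 15 := by
  obtain ⟨X, hX⟩ : ∃ X, X = k + Ω + 2 := ⟨_, rfl⟩
  rw [← hX]
  have h4 : 4 ≤ X := by omega
  have h1 : 2 * (2 * Ω + 10) ≤ 10 * X := by omega
  have h2 : cln Ω ≤ 5010 * X ^ 3 := by
    have h3 := Nat.pow_le_pow_left h1 3
    have h5 : X ≤ X ^ 3 := by
      calc X = X ^ 1 := (pow_one X).symm
        _ ≤ X ^ 3 := Nat.pow_le_pow_right (by omega) (by norm_num)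
    unfold cln
    calc 2 * (2 * Ω + 10) + 5 * (2 * (2 * Ω + 10)) ^ 3 ≤ 10 * X ^ 3 + 5 * (10 * X) ^ 3 := by omega
      _ = 5010 * X ^ 3 := by ring
  have h3 : (Ω + 2) ^ 2 * (3 * k + 3) + 1 ≤ 4 * X ^ 3 := by
    have h5 : (Ω + 2) ^ 2 * (3 * k + 3) ≤ X ^ 2 * (3 * X) :=
      Nat.mul_le_mul (Nat.pow_le_pow_left (by omega) 2) (by omega)
    have h6 : 1 ≤ X ^ 3 := Nat.one_le_pow _ _ (by omega)
    calc (Ω + 2) ^ 2 * (3 * k + 3) + 1 ≤ X ^ 2 * (3 * X) + X ^ 3 := by omega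
      _ = 4 * X ^ 3 := by ring
  have h5 : nbd k Ω ≤ 3 * (4 * X ^ 3 * (X * (5010 * X ^ 3))) :=
    Nat.mul_le_mul_left 3 (Nat.mul_le_mul h3 (Nat.mul_le_mul (by omega) h2))
  refine h5.trans ?_
  have h6 : 4 ^ 8 ≤ X ^ 8 := Nat.pow_le_pow_left h4 8
  calc 3 * (4 * X ^ 3 * (X * (5010 * X ^ 3))) = 60120 * X ^ 7 := by ring
    _ ≤ X ^ 8 * X ^ 7 := Nat.mul_le_mul_right _ (by omega)
    _ = X ^ 15 := by ring

/-- The exponent. -/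
def cc (e : ℕ) : ℕ := 2 * (e + 60)

/-- **The numbers.** -/
theorem num' (e k Ω P n R l₁ B D l f nF Bc : ℕ) (hS : 2 ≤ k + Ω) (hP : 2 ^ ((k + Ω) ^ cc e) ≤ P) (hn : n ≤ nbd k Ω)
    (hR : R ≤ k + 20) (hF : nF ≤ (2 * R + 2) * n + 2) (hl : l₁ ≤ (k + Ω) ^ e) (hB : B + D + l * f ≤ 2 ^ ((k + Ω) ^ e))
    (hf : 0 < f) (hBc : Bc ≤ (1 + 4 * l₁ ^ 2) * B * (1 + 2 * l₁ * D + 4 * l₁ ^ 2 * nF * D) + l₁ + B) :
    (∀ p, (k + Ω + 2) ^ cc e < p → Ω + 1 < p ∧ k < p ∧ 1 + 4 * l₁ ^ 2 * (nF + 1) + 2 * l₁ < p) ∧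
      1000 * ((2 * R + 1) * n ^ 2 + 1) * (l * f) * (4 ^ (10 * ((2 * R + 1) * n ^ 2) + 1) *
        (30 + 5 * (l₁ + Bc + D + l + 10) ^ 20)) ≤ P := by
  have hn := hn.trans (nbd_le hS)
  obtain ⟨X, hX⟩ : ∃ X, X = k + Ω + 2 := ⟨_, rfl⟩
  rw [← hX] at hn ⊢
  have h4 : 4 ≤ X := by omega
  have h2 : 2 ≤ X := by omega
  have hSX : k + Ω ≤ X := by omega
  have hR' : 2 * R + 2 ≤ X ^ 4 := by
    have h1 : 4 ^ 3 ≤ X ^ 3 := Nat.pow_le_pow_left h4 3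
    have h3 : 64 * X ≤ X ^ 3 * X := Nat.mul_le_mul_right X (by omega)
    have h5 : X ^ 4 = X ^ 3 * X := by ring
    omega
  have hF' : nF ≤ X ^ 20 := by
    have h1 : (2 * R + 2) * n ≤ X ^ 4 * X ^ 15 := Nat.mul_le_mul hR' hn
    have h3 : X ^ 20 = X ^ 4 * X ^ 15 * X := by ring
    have h5 : 4 * (X ^ 4 * X ^ 15) ≤ X ^ 4 * X ^ 15 * X := by
      rw [mul_comm]
      exact Nat.mul_le_mul_left _ h4
    have h6 : 0 < X ^ 4 * X ^ 15 := Nat.mul_pos (Nat.pow_pos (by omega)) (Nat.pow_pos (by omega))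
    omega
  have hm : (2 * R + 1) * n ^ 2 + 1 ≤ X ^ 35 := by
    have h1 : (2 * R + 1) * n ^ 2 ≤ X ^ 4 * (X ^ 15) ^ 2 := Nat.mul_le_mul (by omega) (Nat.pow_le_pow_left hn 2)
    have h3 : X ^ 35 = X ^ 4 * (X ^ 15) ^ 2 * X := by ring
    have h5 : 4 * (X ^ 4 * (X ^ 15) ^ 2) ≤ X ^ 4 * (X ^ 15) ^ 2 * X := by
      rw [mul_comm]
      exact Nat.mul_le_mul_left _ h4
    have h6 : 0 < X ^ 4 * (X ^ 15) ^ 2 := Nat.mul_pos (Nat.pow_pos (by omega)) (Nat.pow_pos (Nat.pow_pos (by omega)))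
    omega
  have hl' : l₁ ≤ X ^ e := hl.trans (Nat.pow_le_pow_left hSX e)
  constructor
  · -- primes
    intro p hp
    have hc : X ^ (2 * e + 23) ≤ X ^ cc e := Nat.pow_le_pow_right (by omega) (by unfold cc; omega)
    have h1 : 1 ≤ X ^ (2 * e + 22) := Nat.one_le_pow _ _ (by omega)
    have h3 : X ^ (2 * e + 23) = X ^ (2 * e + 22) * X := by ring
    have h5 : X ^ (2 * e + 22) * 4 ≤ X ^ (2 * e + 22) * X := Nat.mul_le_mul_left _ h4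
    have hXX : X ≤ X ^ (2 * e + 22) * X := Nat.le_mul_of_pos_left _ (by omega)
    refine ⟨by omega, by omega, ?_⟩
    have h6 : 4 * l₁ ^ 2 * (nF + 1) ≤ X ^ (2 * e + 22) := by
      have a1 : l₁ ^ 2 ≤ (X ^ e) ^ 2 := Nat.pow_le_pow_left hl' 2
      have a2 : nF + 1 ≤ X ^ 21 := by
        have b1 : X ^ 21 = X ^ 20 * X := by ring
        have b2 : X ^ 20 * 4 ≤ X ^ 20 * X := Nat.mul_le_mul_left _ h4
        have b3 : 1 ≤ X ^ 20 := Nat.one_le_pow _ _ (by omega)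
        omega
      calc 4 * l₁ ^ 2 * (nF + 1) ≤ X * (X ^ e) ^ 2 * X ^ 21 := Nat.mul_le_mul (Nat.mul_le_mul h4 a1) a2
        _ = X ^ (2 * e + 22) := by ring
    have h7 : l₁ ≤ X ^ (2 * e + 22) := hl'.trans (Nat.pow_le_pow_right (by omega) (by omega))
    have h8 : 2 * l₁ ≤ X ^ (2 * e + 22) := by
      have a1 : X ^ (e + 1) ≤ X ^ (2 * e + 22) := Nat.pow_le_pow_right (by omega) (by omega)
      have a2 : X ^ (e + 1) = X ^ e * X := by ring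
      have a3 : X ^ e * 2 ≤ X ^ e * X := Nat.mul_le_mul_left _ h2
      omega
    omega
  · -- the length of the period
    have hS0 : 0 < k + Ω := by omega
    have hSe : 2 ^ ((k + Ω) ^ e) ≤ 2 ^ X ^ e := Nat.pow_le_pow_right (by norm_num) (Nat.pow_le_pow_left hSX e)
    set a := e + 38 with ha
    have hae : e ≤ a := by omega
    have c0 : ∀ c : ℕ, c ≤ 1024 → c ≤ 2 ^ X ^ a := fun c hc => by
      refine hc.trans ?_
      rw [show 1024 = 2 ^ 10 by norm_num]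
      refine Nat.pow_le_pow_right (by norm_num) ?_
      calc 10 ≤ 4 ^ 2 := by norm_num
        _ ≤ X ^ 2 := Nat.pow_le_pow_left h4 2
        _ ≤ X ^ a := Nat.pow_le_pow_right (by omega) (by omega)
    have c1 : l₁ ≤ 2 ^ X ^ a := e_le h2 hae (e_of hl')
    have cB : B ≤ 2 ^ X ^ a := e_le h2 hae (by omega)
    have cD : D ≤ 2 ^ X ^ a := e_le h2 hae (by omega)
    have cf : l * f ≤ 2 ^ X ^ a := e_le h2 hae (by omega)
    have cl : l ≤ 2 ^ X ^ a := (Nat.le_mul_of_pos_right l hf).trans cf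
    have cF : nF ≤ 2 ^ X ^ a := e_le h2 (by omega) (e_of hF')
    have cm : (2 * R + 1) * n ^ 2 + 1 ≤ 2 ^ X ^ a := e_le h2 (by omega) (e_of hm)
    have c4 : 4 ^ (10 * ((2 * R + 1) * n ^ 2) + 1) ≤ 2 ^ X ^ a := by
      rw [show 4 = 2 ^ 2 by norm_num, ← pow_mul]
      refine Nat.pow_le_pow_right (by norm_num) ?_
      have b1 : X ^ 38 ≤ X ^ a := Nat.pow_le_pow_right (by omega) (by omega)
      have b2 : X ^ 38 = X ^ 35 * X ^ 3 := by ring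
      have b3 : 4 ^ 3 ≤ X ^ 3 := Nat.pow_le_pow_left h4 3
      have b4 : X ^ 35 * 64 ≤ X ^ 35 * X ^ 3 := Nat.mul_le_mul_left _ (by omega)
      omega
    have d1 : l₁ ^ 2 ≤ 2 ^ X ^ (a + 1) := by rw [sq]; exact e_mul h2 c1 c1
    have d2 : 4 * l₁ ^ 2 ≤ 2 ^ X ^ (a + 2) := e_mul h2 (e_le h2 (by omega) (c0 4 (by norm_num))) d1
    have d3 : 1 + 4 * l₁ ^ 2 ≤ 2 ^ X ^ (a + 3) := e_add h2 (e_le h2 (by omega) (c0 1 (by norm_num))) d2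
    have d4 : (1 + 4 * l₁ ^ 2) * B ≤ 2 ^ X ^ (a + 4) := e_mul h2 d3 (e_le h2 (by omega) cB)
    have d5 : 2 * l₁ ≤ 2 ^ X ^ (a + 1) := e_mul h2 (c0 2 (by norm_num)) c1
    have d6 : 2 * l₁ * D ≤ 2 ^ X ^ (a + 2) := e_mul h2 d5 (e_le h2 (by omega) cD)
    have d7 : 1 + 2 * l₁ * D ≤ 2 ^ X ^ (a + 3) := e_add h2 (e_le h2 (by omega) (c0 1 (by norm_num))) d6
    have d8 : 4 * l₁ ^ 2 * nF ≤ 2 ^ X ^ (a + 3) := e_mul h2 d2 (e_le h2 (by omega) cF)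
    have d9 : 4 * l₁ ^ 2 * nF * D ≤ 2 ^ X ^ (a + 4) := e_mul h2 d8 (e_le h2 (by omega) cD)
    have d10 : 1 + 2 * l₁ * D + 4 * l₁ ^ 2 * nF * D ≤ 2 ^ X ^ (a + 5) := e_add h2 (e_le h2 (by omega) d7) d9
    have d11 : (1 + 4 * l₁ ^ 2) * B * (1 + 2 * l₁ * D + 4 * l₁ ^ 2 * nF * D) ≤ 2 ^ X ^ (a + 6) :=
      e_mul h2 (e_le h2 (by omega) d4) d10
    have d12 : (1 + 4 * l₁ ^ 2) * B * (1 + 2 * l₁ * D + 4 * l₁ ^ 2 * nF * D) + l₁ ≤ 2 ^ X ^ (a + 7) :=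
      e_add h2 d11 (e_le h2 (by omega) c1)
    have d13 : (1 + 4 * l₁ ^ 2) * B * (1 + 2 * l₁ * D + 4 * l₁ ^ 2 * nF * D) + l₁ + B ≤ 2 ^ X ^ (a + 8) :=
      e_add h2 d12 (e_le h2 (by omega) cB)
    have d14 : Bc ≤ 2 ^ X ^ (a + 8) := hBc.trans d13
    have d15 : l₁ + Bc ≤ 2 ^ X ^ (a + 9) := e_add h2 (e_le h2 (by omega) c1) d14
    have d16 : l₁ + Bc + D ≤ 2 ^ X ^ (a + 10) := e_add h2 d15 (e_le h2 (by omega) cD)
    have d17 : l₁ + Bc + D + l ≤ 2 ^ X ^ (a + 11) := e_add h2 d16 (e_le h2 (by omega) cl)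
    have d18 : l₁ + Bc + D + l + 10 ≤ 2 ^ X ^ (a + 12) := e_add h2 d17 (e_le h2 (by omega) (c0 10 (by norm_num)))
    have d19 : (l₁ + Bc + D + l + 10) ^ 20 ≤ 2 ^ X ^ (a + 17) := e_pow h2 d18
    have d20 : 5 * (l₁ + Bc + D + l + 10) ^ 20 ≤ 2 ^ X ^ (a + 18) := e_mul h2 (e_le h2 (by omega) (c0 5 (by norm_num))) d19
    have d21 : 30 + 5 * (l₁ + Bc + D + l + 10) ^ 20 ≤ 2 ^ X ^ (a + 19) :=
      e_add h2 (e_le h2 (by omega) (c0 30 (by norm_num))) d20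
    have d22 : 4 ^ (10 * ((2 * R + 1) * n ^ 2) + 1) * (30 + 5 * (l₁ + Bc + D + l + 10) ^ 20) ≤ 2 ^ X ^ (a + 20) :=
      e_mul h2 (e_le h2 (by omega) c4) d21
    have d23 : 1000 * ((2 * R + 1) * n ^ 2 + 1) ≤ 2 ^ X ^ (a + 1) := e_mul h2 (c0 1000 (by norm_num)) cm
    have d24 : 1000 * ((2 * R + 1) * n ^ 2 + 1) * (l * f) ≤ 2 ^ X ^ (a + 2) := e_mul h2 d23 (e_le h2 (by omega) cf)
    have d25 := e_mul h2 (e_le h2 (show a + 2 ≤ a + 20 by omega) d24) d22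
    refine (d25.trans ?_).trans hP
    refine Nat.pow_le_pow_right (by norm_num) ?_
    have hXS : X ≤ (k + Ω) ^ 2 := by
      have b1 : (k + Ω) * 2 ≤ (k + Ω) * (k + Ω) := Nat.mul_le_mul_left _ hS
      rw [sq]
      omega
    calc X ^ (a + 20 + 1) ≤ ((k + Ω) ^ 2) ^ (a + 20 + 1) := Nat.pow_le_pow_left hXS _
      _ = (k + Ω) ^ (2 * (a + 20 + 1)) := by rw [← pow_mul]
      _ ≤ (k + Ω) ^ cc e := Nat.pow_le_pow_right hS0 (by unfold cc; omega)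

/-- The numbers, interface. -/
theorem num (e : ℕ) : ∃ c₀ : ℕ, ∀ k Ω P n R l₁ B D l f nF Bc : ℕ, 2 ≤ k + Ω → 2 ^ ((k + Ω) ^ c₀) ≤ P →
    n ≤ 3 * (((Ω + 2) ^ 2 * (3 * k + 3) + 1) * (k * (2 * (2 * Ω + 10) + 5 * (2 * (2 * Ω + 10)) ^ 3))) →
    R ≤ k + 20 → nF ≤ (2 * R + 2) * n + 2 → l₁ ≤ (k + Ω) ^ e → B + D + l * f ≤ 2 ^ ((k + Ω) ^ e) → 0 < f →
    Bc ≤ (1 + 4 * l₁ ^ 2) * B * (1 + 2 * l₁ * D + 4 * l₁ ^ 2 * nF * D) + l₁ + B →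
    (∀ p, (k + Ω + 2) ^ c₀ < p → Ω + 1 < p ∧ k < p ∧ 1 + 4 * l₁ ^ 2 * (nF + 1) + 2 * l₁ < p) ∧
      1000 * ((2 * R + 1) * n ^ 2 + 1) * (l * f) * (4 ^ (10 * ((2 * R + 1) * n ^ 2) + 1) *
        (30 + 5 * (l₁ + Bc + D + l + 10) ^ 20)) ≤ P :=
  ⟨cc e, fun k Ω P n R l₁ B D l f nF Bc hS hP hn hR hF hl hB hf hBc =>
    num' e k Ω P n R l₁ B D l f nF Bc hS hP hn hR hF hl hB hf hBc⟩

/-! ### Groups -/

theorem pf_le {G : Type} [Group G] [Finite G] (N : Subgroup G) :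
    (Nat.card N).primeFactors.card ≤ (Nat.card G).primeFactorsList.length := by
  have h1 : (Nat.card N).primeFactors ⊆ (Nat.card G).primeFactors :=
    Nat.primeFactors_mono (Subgroup.card_subgroup_dvd_card N) Nat.card_pos.ne'
  refine (Finset.card_le_card h1).trans ?_
  exact (List.toFinset_card_le _)

theorem card_Cl {G : Type} [Group G] [Finite G] {S : Lets G} {A D : Set G} {Ω : ℕ} (hD : D ⊆ A)
    (hA : A.ncard ≤ 2 * Ω + 10) : Nat.card (Cl D (Set.range S.al) (Set.range S.be)) ≤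
      2 * (2 * Ω + 10) + 5 * (2 * (2 * Ω + 10)) ^ 3 := by
  classical
  have h1 : Nat.card D ≤ 2 * Ω + 10 := by
    rw [Nat.card_coe_set_eq]
    exact (Set.ncard_le_ncard hD (Set.toFinite _)).trans hA
  have h2 : ∀ f : Bool → G, Nat.card (Set.range f) ≤ 2 := by
    intro f
    have h3 := Nat.card_le_card_of_surjective (Set.rangeFactorization f) Set.rangeFactorization_surjective
    simpa using h3
  have ha := h2 S.al
  have hb := h2 S.be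
  obtain ⟨d, hd⟩ : ∃ d, d = Nat.card D := ⟨_, rfl⟩
  obtain ⟨a, ha'⟩ : ∃ a, a = Nat.card (Set.range S.al) := ⟨_, rfl⟩
  obtain ⟨b, hb'⟩ : ∃ b, b = Nat.card (Set.range S.be) := ⟨_, rfl⟩
  have e1 : Nat.card (Cl D (Set.range S.al) (Set.range S.be)) = d * b + d * b * ((d * b + d * (b * (a * b))) * (d * b)) := by
    unfold Cl
    simp only [Nat.card_sum, Nat.card_prod]
    rw [hd, ha', hb']
  rw [e1]
  rw [← hd] at h1
  rw [← ha'] at ha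
  rw [← hb'] at hb
  obtain ⟨q, hq⟩ : ∃ q, q = 2 * (2 * Ω + 10) := ⟨_, rfl⟩
  rw [← hq]
  have e2 : d * b ≤ q := by
    calc d * b ≤ (2 * Ω + 10) * 2 := Nat.mul_le_mul h1 hb
      _ = q := by rw [hq]; ring
  have e3 : a * b ≤ 4 := by
    calc a * b ≤ 2 * 2 := Nat.mul_le_mul ha hb
      _ = 4 := rfl
  have e4 : d * b + d * (b * (a * b)) ≤ 5 * q := by
    calc d * b + d * (b * (a * b)) = d * b + d * b * (a * b) := by ring
      _ ≤ q + q * 4 := Nat.add_le_add e2 (Nat.mul_le_mul e2 e3)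
      _ = 5 * q := by ring
  calc d * b + d * b * ((d * b + d * (b * (a * b))) * (d * b)) ≤ q + q * (5 * q * q) :=
        Nat.add_le_add e2 (Nat.mul_le_mul e2 (Nat.mul_le_mul e4 e2))
    _ = q + 5 * q ^ 3 := by ring

end Pool.Agent.Lib.MP_688fd0_co.SQ7.H53
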